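import Pool.Agent.W5h93.TBU.Main
import Pool.Agent.W5h93.TBU.QDefs
import Pool.Agent.W5h93.QD.Conv

/-!
# The conjecture of Jannsen and systems of quadratic equations
-/

set_option autoImplicit false

open CategoryTheory AlgebraicGeometry MvPolynomial Pool.Agent.Y116.UV Pool.Agent.Z125.UN
  Pool.Agent.W5h93.QD Pool.Agent.W5h93.TBU

namespace Pool.Agent.Results.MP_2ce3e7_ag.QuadraticSystems

/-- **Jannsen's conjecture and systems of quadratic equations.** Let `k` be a finite field of odd
characteristic and `T` motivic and `ℓ`-adic homology of the schemes over `k`.

(1) If `TB` is true for all smooth schemes of dimension at most `n`, then it is true for all subschemes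
of the affine spaces over `Spec A` given by `r + 1` quadratic equations and any number of linear
equations in the coordinates, for all algebras `A` of finite type with `dim A + r ≤ n`. For `n = 1`, where
`TB` is known, this is `TB` for the systems of two quadratic and any number of linear equations over `k`
and for the families of affine quadrics over affine curves.

(2) If `TB` is true for the affine schemes given by `n + 2` quadratic equations over `k`, then it is true
for all smooth schemes of dimension at most `n`. -/
theorem result (k : Type) [Field k] [Finite k] (h2 : (2 : k) ≠ 0) (Ω : Type) [Field Ω] [CharZero Ω]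
    (T : Data Ω k) (hT : T.IsInvariant) (hC : T.DoubleCoverSummand) (n : ℕ) :
    (T.TBDim n → T.TBQuadrics n) ∧ (T.TBSystems (n + 2) → T.TBDim n) := by
  have hB := bnd_tb hT
  have hDC : DoubleCovers T.TB := fun A _ _ _ u hu h => tb_summand hT.toIsTheory (hC A u hu) h
  refine ⟨fun h A _ _ _ s r hA hn N m b q hb hq => ?_, fun h X hX _ hn => dim_of_quad hB h X hX hn⟩
  exact quad_of_dim hB hDC h2 (dim_smooth hB n h) hA hn b q hb hq

end Pool.Agent.Results.MP_2ce3e7_ag.QuadraticSystems
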