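import Pool.Agent.W5h93.TBU.Main

/-!
# The conjecture of Jannsen and systems of bilinear equations

Let `T` be motivic and `ℓ`-adic homology of the schemes over the field with `p` elements, with the
regulators and the Frobenius. Used are the long exact localization sequences, and that the groups of
an affine scheme `X` are direct summands of those of `X × 𝔾_m`. Then `TB(X)` holds for all separated
schemes `X` of finite type (quasi-projective or not) if and only if it holds for the affine schemes
given by the systems of bilinear equations `∑_{(i, j) ∈ E_l} x_i y_j = 0`, `l = 1, …, c`, with at most
three terms in every equation (and no other coefficients than `1`).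

Schemes over the field with `p ^ a` elements can be regarded as schemes over the prime field; this
does not change the groups, except that the `ℓ`-adic homology is replaced by an induced
representation, and `TB` is not changed.

The proof: `TB` has the two-out-of-three property for a closed subscheme and its complement (the five
lemma for the regulators, on the generalised eigenspaces of the Frobenius), and it passes from
`X × 𝔾_m` to `X`. Every property of schemes of finite type with these two closure properties is
decided by the three-term systems (`Pool.Agent.Q282.UZ.three_iff` of the starting files).
-/

open CategoryTheory AlgebraicGeometry MvPolynomial Pool.Agent.Y116.UV Pool.Agent.W5h93.TBU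

namespace Pool.Agent.Results.MP_2ce3e7_ag.ThreeTermSystems

/-- **Jannsen's conjecture for all schemes over the prime field is the conjecture for systems of
bilinear equations with at most three terms.** -/
theorem result (p : ℕ) [Fact p.Prime] (Ω : Type) [Field Ω] [CharZero Ω] (T : Data Ω (ZMod p))
    (hT : T.IsTheory) :
    (∀ X : Sch (ZMod p), FT True X → T.TB X) ↔
      ∀ (a b c : ℕ) (E : Fin c → Finset (Fin a × Fin b)), (∀ l, (E l).card ≤ 3) →
        T.TB (aff (ZMod p) (MvPolynomial (Fin a ⊕ Fin b) (ZMod p) ⧸
          Ideal.span (Set.range fun l => ∑ e ∈ E l,
            (X (Sum.inl e.1) * X (Sum.inr e.2) : MvPolynomial (Fin a ⊕ Fin b) (ZMod p))))) :=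
  three_tb p hT

end Pool.Agent.Results.MP_2ce3e7_ag.ThreeTermSystems
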