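import Pool.Agent.W5h93.TBU.Main
import Pool.Agent.W5h93.TBU.QDefs
import Pool.Agent.W5h38.TV.Few

/-!
# The conjecture of Jannsen and torus actions of complexity at most `n`

Let `X` be a closed subscheme of an affine space which is stable under a torus acting diagonally. It is
of complexity at most `n` if each stratum of `X` (given by the vanishing and non-vanishing of the
coordinates) has dimension at most `n` plus the dimension of the orbits in the stratum.

Over a finite field, `TB` for all smooth schemes of dimension at most `n` implies `TB` for all torus
schemes of complexity at most `n`, of any dimension and with any singularities, and for all schemes
built from them by closed-open decompositions (for example the closed subschemes of projective spaces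
stable under a torus). For `n = 1` `TB` is known.

Explicit members of this class are the inverse images of the cones of dimension at most `n + 1` under
all monomial maps between affine spaces, also with additional equations with two terms, and the schemes
given by `c` linearly independent equations with at most `c + n + 1` monomials altogether, also with
additional equations with two terms: their strata are stable under tori of complexity at most `n`. For
`n = 1` this is `TB` for example for all hypersurfaces given by polynomials with three terms, in all
dimensions and with all singularities. (This part is a joint work with helper68.)

Proof. The strata are split off one after the other. A stratum is the spectrum of a ring `A` generated by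
units `x_i` which is graded by `ℤ ^ m`. If some last weight `v_i` is not zero, let `g` be the greatest
common divisor of the `v_i` and `y` a monomial of last weight `g`; then `A = B[t, 1 / t]`, where
`B = A / (y - 1)`, by `x_i ↦ x_i t ^ (v_i / g)`, and `B` is graded by `ℤ ^ (m - 1)`, of dimension and of
rank smaller by one.
-/

set_option autoImplicit false

open CategoryTheory AlgebraicGeometry MvPolynomial Pool.Agent.Y116.UV Pool.Agent.Z125.UN
  Pool.Agent.W5h93.TBU Pool.Agent.W5h38.TV Pool.Agent.W5h68.SP

namespace Pool.Agent.Results.MP_2ce3e7_ag.TorusActions

/-- **Jannsen's conjecture and torus actions.** Let `k` be a finite field and `T` motivic and `ℓ`-adic
homology of the schemes over `k`.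

(1) For every `n`, `TB` is true for all smooth schemes of dimension at most `n` if and only if it is
true for all schemes built from torus schemes of complexity at most `n`.

(2) The inverse images of the cones of dimension at most `n + 1` under monomial maps, and the schemes
given by `c` linearly independent equations with at most `c + n + 1` monomials, both also with
additional equations with at most two terms, are built from torus schemes of complexity at most `n`. -/
theorem result (k : Type) [Field k] [Finite k] (Ω : Type) [Field Ω] [CharZero Ω]
    (T : Data Ω k) (hT : T.IsInvariant) :
    (∀ n : ℕ, T.TBDim n ↔ ∀ X : Sch k, Built n X → T.TB X) ∧
      ∀ n : ℕ, Cones (k := k) n (Built n) ∧ Sparse (k := k) n (Built n) :=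
  ⟨fun n => dim_iff (bnd_tb hT) n, fun n => ⟨cones_built n, sparse_built n⟩⟩

end Pool.Agent.Results.MP_2ce3e7_ag.TorusActions
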