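import Pool.Agent.W5h93.TBU.Main

/-!
# The conjecture of Jannsen in dimension `n` and trilinear forms

Let `T` be motivic and `ℓ`-adic homology of the schemes over a finite field `k`, with the regulators
and the Frobenius. For every `n` the conjecture `TB(X)` for the smooth schemes `X` of dimension at
most `n` is equivalent to `TB(X)` for all separated schemes `X` of finite type of dimension at most
`n`, and to `TB` for the smooth affine cubic hypersurfaces `S(x, y, z) = 1`, of arbitrary dimension,
for the trilinear forms `S` over `k` one of whose three blocks of variables has at most `n + 2`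
variables.

For `n = 1`, where `TB` is known (Harder, Soulé, Jannsen), this gives `TB` for all these cubic
hypersurfaces with a block of at most three variables; for `n = 2` it is the conjecture for surfaces.

The proof uses the general theorem on properties closed under closed-open decompositions and affine
bundles of the starting files (`Pool.Agent.Z125.UN`).
-/

open CategoryTheory AlgebraicGeometry Pool.Agent.Y116.UV Pool.Agent.W5h93.TBU

namespace Pool.Agent.Results.MP_2ce3e7_ag.TrilinearBlocks

/-- **Jannsen's conjecture in dimension `n` is the conjecture for the hypersurfaces
`S(x, y, z) = 1` with a block of at most `n + 2` variables.** -/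
theorem result (k : Type) [Field k] [Finite k] (Ω : Type) [Field Ω] [CharZero Ω] (T : Data Ω k)
    (hT : T.IsInvariant) (n : ℕ) :
    List.TFAE [
      ∀ X : Sch k, FT True X → Smooth X.hom → topologicalKrullDim X.left ≤ n → T.TB X,
      ∀ X : Sch k, FT True X → topologicalKrullDim X.left ≤ n → T.TB X,
      ∀ (a b c : ℕ) (S : Fin a → Fin b → Fin c → k), (a ≤ n + 2 ∨ b ≤ n + 2 ∨ c ≤ n + 2) →
        T.TB (hypS S)] :=
  dim_tfae hT n

end Pool.Agent.Results.MP_2ce3e7_ag.TrilinearBlocks
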